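import Pool.Agent.W611.RO.Stms

/-!
Project RO (helper611), part M2 (helper405): positivity of the complex Laplacian of `τ log`.
-/

set_option autoImplicit false

namespace Pool.Agent.W405.RO

open Pool.Agent.H712R5.BO

variable {A : Type} [CStarAlgebra A]

theorem unit_h (Q : A) (δ : ℝ) (hδ : 0 < δ) : IsUnit (algebraMap ℝ A δ + star Q * Q) := by
  apply spectrum.isUnit_of_zero_notMem ℝ
  intro h0
  have h1 : (0 : ℝ) - δ ∈ spectrum ℝ (star Q * Q) := by
    have := (spectrum.add_mem_add_iff (r := 0 - δ) (s := δ) (a := star Q * Q) (R := ℝ)).1 (by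
      have e : (0 : ℝ) - δ + δ = 0 := by ring
      rw [e]
      exact h0)
    exact this
  have h2 := spectrum_star_mul_self_nonneg _ h1
  linarith

/-- the inverse -/
noncomputable def iv (Q : A) (δ : ℝ) : A := Ring.inverse (algebraMap ℝ A δ + star Q * Q)

theorem iv_mul (Q : A) (δ : ℝ) (hδ : 0 < δ) : iv Q δ * (algebraMap ℝ A δ + star Q * Q) = 1 :=
  Ring.inverse_mul_cancel _ (unit_h Q δ hδ)

theorem mul_iv (Q : A) (δ : ℝ) (hδ : 0 < δ) : (algebraMap ℝ A δ + star Q * Q) * iv Q δ = 1 :=
  Ring.mul_inverse_cancel _ (unit_h Q δ hδ)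

theorem star_iv (Q : A) (δ : ℝ) : star (iv Q δ) = iv Q δ := by
  unfold iv
  rw [← Ring.inverse_star]
  congr 1
  rw [star_add, star_mul, star_star]
  congr 1
  have : algebraMap ℝ A δ = (δ : ℂ) • (1 : A) := by
    rw [Algebra.algebraMap_eq_smul_one, Complex.coe_smul]
  rw [this, star_smul, star_one, Complex.star_def, Complex.conj_ofReal]

theorem iv_decomp (Q : A) (δ : ℝ) (hδ : 0 < δ) :
    iv Q δ = δ • (star (iv Q δ) * iv Q δ) + star (Q * iv Q δ) * (Q * iv Q δ) := by
  have h := iv_mul Q δ hδ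
  rw [star_mul, star_iv]
  calc iv Q δ = (iv Q δ * (algebraMap ℝ A δ + star Q * Q)) * iv Q δ := by rw [h, one_mul]
    _ = _ := by
      rw [Algebra.algebraMap_eq_smul_one]
      simp only [mul_add, add_mul, mul_smul_comm, smul_mul_assoc, mul_one, mul_assoc]

theorem one_sub (Q : A) (δ : ℝ) (hδ : 0 < δ) :
    1 - Q * iv Q δ * star Q = δ • iv (star Q) δ := by
  have h1 := mul_iv Q δ hδ
  have h2 := iv_mul (star Q) δ hδ
  rw [star_star] at h2
  have h3 : (algebraMap ℝ A δ + Q * star Q) * (1 - Q * iv Q δ * star Q) = algebraMap ℝ A δ := by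
    have h4 : (algebraMap ℝ A δ + Q * star Q) * (Q * iv Q δ * star Q) =
        Q * ((algebraMap ℝ A δ + star Q * Q) * iv Q δ) * star Q := by
      rw [Algebra.algebraMap_eq_smul_one]
      simp only [mul_add, add_mul, mul_smul_comm, smul_mul_assoc, mul_one, one_mul, mul_assoc]
    rw [mul_sub, mul_one, h4, h1, mul_one]
    abel
  calc 1 - Q * iv Q δ * star Q =
      (iv (star Q) δ * (algebraMap ℝ A δ + Q * star Q)) * (1 - Q * iv Q δ * star Q) := by
        rw [h2, one_mul]
    _ = iv (star Q) δ * algebraMap ℝ A δ := by rw [mul_assoc, h3]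
    _ = _ := by rw [Algebra.algebraMap_eq_smul_one, mul_smul_comm, mul_one]

theorem pos2 (τ : A →L[ℂ] ℂ) (hτ : TrSt τ) (a b Y : A) :
    0 ≤ (τ (star a * a * (star Y * (star b * b) * Y))).re := by
  have h := hτ.pos (b * Y * star a)
  have e : τ (star (b * Y * star a) * (b * Y * star a)) =
      τ (star a * a * (star Y * (star b * b) * Y)) := by
    have e1 : star (b * Y * star a) * (b * Y * star a) =
        (a * (star Y * (star b * b) * Y)) * star a := by
      simp only [star_mul, star_star, mul_assoc]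
    rw [e1, hτ.tr, ← mul_assoc]
  rwa [e] at h

theorem tau_smul (τ : A →L[ℂ] ℂ) (r : ℝ) (a : A) : (τ (r • a)).re = r * (τ a).re := by
  have : r • a = (r : ℂ) • a := (Complex.coe_smul r a).symm
  rw [this, map_smul, smul_eq_mul, Complex.re_ofReal_mul]

theorem pos_main (τ : A →L[ℂ] ℂ) (hτ : TrSt τ) (Q Y : A) (δ : ℝ) (hδ : 0 < δ) :
    0 ≤ (τ (iv Q δ * (star Y * iv (star Q) δ * Y))).re := by
  have h1 := iv_decomp Q δ hδ
  have h2 := iv_decomp (star Q) δ hδ
  set i := iv Q δ with hi
  set k := iv (star Q) δ with hk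
  have p1 := pos2 τ hτ i k Y
  have p2 := pos2 τ hτ i (star Q * k) Y
  have p3 := pos2 τ hτ (Q * i) k Y
  have p4 := pos2 τ hτ (Q * i) (star Q * k) Y
  have e : τ (i * (star Y * k * Y)) =
      τ (δ • (δ • (star i * i * (star Y * (star k * k) * Y)))
        + δ • (star i * i * (star Y * (star (star Q * k) * (star Q * k)) * Y))
        + δ • (star (Q * i) * (Q * i) * (star Y * (star k * k) * Y))
        + star (Q * i) * (Q * i) * (star Y * (star (star Q * k) * (star Q * k)) * Y)) := by
    congr 1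
    conv_lhs => rw [h1, h2]
    simp only [mul_add, add_mul, mul_smul_comm, smul_mul_assoc, smul_add]
    abel
  rw [e]
  simp only [map_add, Complex.add_re, tau_smul]
  positivity

theorem t_M2 : Pool.Agent.W611.RO.P_M2 := by
  intro A _ τ hτ Q Y Z δ hδ
  change 0 ≤ (τ (iv Q δ * (star Z * Q + (2:ℝ) • (star Y * Y) + star Q * Z))).re
    - (τ (iv Q δ * (star Y * Q + star Q * Y) * iv Q δ * (star Y * Q + star Q * Y))).re
    + ((τ (iv Q δ * (-(star Z * Q) + (2:ℝ) • (star Y * Y) - star Q * Z))).re
    - (τ (iv Q δ * (-(Complex.I • (star Y * Q)) + Complex.I • (star Q * Y)) *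
        iv Q δ * (-(Complex.I • (star Y * Q)) + Complex.I • (star Q * Y)))).re)
  have hp := pos_main τ hτ Q Y δ hδ
  have hone := one_sub Q δ hδ
  set i := iv Q δ with hi
  set X := star Q * Y with hX
  set X' := star Y * Q with hX'
  have m23 : τ (i * X * i * X') = τ (i * X' * i * X) := by
    have := hτ.tr (i * X) (i * X')
    simpa only [mul_assoc] using this
  have h1 : (τ (i * (star Z * Q + (2:ℝ) • (star Y * Y) + star Q * Z))).re
      + (τ (i * (-(star Z * Q) + (2:ℝ) • (star Y * Y) - star Q * Z))).re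
      = 4 * (τ (i * (star Y * Y))).re := by
    simp only [two_smul, mul_add, mul_sub, mul_neg, map_add, map_sub, map_neg, Complex.add_re,
      Complex.sub_re, Complex.neg_re]
    ring
  have h2 : τ (i * (X' + X) * i * (X' + X)) = τ (i * X' * i * X') + τ (i * X' * i * X)
      + τ (i * X * i * X') + τ (i * X * i * X) := by
    simp only [mul_add, add_mul, map_add]
    ring
  have h3 : τ (i * (-(Complex.I • X') + Complex.I • X) * i * (-(Complex.I • X') + Complex.I • X))
      = -(τ (i * X' * i * X')) + τ (i * X' * i * X)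
      + τ (i * X * i * X') - τ (i * X * i * X) := by
    simp only [mul_add, add_mul, mul_neg, neg_mul, mul_smul_comm, smul_mul_assoc, smul_smul,
      Complex.I_mul_I, map_add, map_neg, map_smul, smul_neg, smul_eq_mul, neg_neg]
    ring_nf
    simp only [Complex.I_sq]
    ring
  have h4 : i * (star Y * Y) - i * X' * i * X = δ • (i * (star Y * iv (star Q) δ * Y)) := by
    have e1 : i * (star Y * Y) - i * X' * i * X = i * (star Y * (1 - Q * i * star Q) * Y) := by
      rw [hX, hX']
      simp only [mul_sub, sub_mul, mul_one, mul_assoc]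
    rw [e1, hone]
    simp only [mul_smul_comm, smul_mul_assoc]
  have h5 : (τ (i * (star Y * Y))).re - (τ (i * X' * i * X)).re =
      δ * (τ (i * (star Y * iv (star Q) δ * Y))).re := by
    rw [← Complex.sub_re, ← map_sub, h4, tau_smul]
  have h6 : 0 ≤ δ * (τ (i * (star Y * iv (star Q) δ * Y))).re := mul_nonneg hδ.le hp
  rw [h2, h3, m23]
  simp only [Complex.add_re, Complex.sub_re, Complex.neg_re]
  linarith

end Pool.Agent.W405.RO
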